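import Pool.Agent.H97.CT.Final

/-!
# The unit circle with arbitrary projective involutions

Let `γ` be the unit circle (every ellipse is affinely equivalent to it), and suppose that an exterior
collar of `γ`, up to and including a leaf of quadrilaterals `z, w, -z, -w` whose sides touch `γ`, is
foliated by closed convex curves such that for every point `p` of `γ` the involution `σ_p` of the
tangent line at `p` is projective.  Nothing else is assumed about the involutions (their second fixed
points are an arbitrary function of `p`), and no symmetry of the other leaves is assumed.  Then all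
leaves are ellipses of one pencil of conics, which contains `γ`.
-/

set_option autoImplicit false

open Set Complex
open scoped Real

namespace Pool.Agent.Results.MP_ae5b4e_an.CircleArbitraryProjective

open Pool.Agent.H97.OB Pool.Agent.H97.CT

theorem result {Y : ℂ → ℝ} (hY : IsCollar circ Y)
    (hσ : ∀ θ, SigmaProjective circ Y θ) (h4 : OuterLeafSymmetricFourPeriodic circ Y) :
    ∃ a b d : ℝ, 0 < a ∧ b ^ 2 < a * d ∧ ∀ c : ℝ, 0 ≤ c → c ≤ 1 → ∃ l : ℝ, 0 ≤ l ∧
      0 < 1 - l * a ∧ (l * b) ^ 2 < (1 - l * a) * (1 - l * d) ∧
      ∀ z : ℂ, Y z = c ↔
        z.re ^ 2 + z.im ^ 2 - 1 = l * (a * z.re ^ 2 + 2 * b * z.re * z.im + d * z.im ^ 2) :=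
  circle_projective hY hσ h4

end Pool.Agent.Results.MP_ae5b4e_an.CircleArbitraryProjective
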