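import Pool.Agent.H97.IN.Final

/-!
# Ordinary (Birkhoff) billiards in dual form: rigidity of a collar up to a leaf of 3-periodic orbits

Let `γ` be an oval of class `C²` with positive curvature (no symmetry is assumed), `O = 0` a point
inside it, and suppose that an exterior collar of `γ`, up to and including a leaf of closed triangles
touching `γ`, is foliated by closed convex curves, such that for every point `p` of `γ` the
involution `σ_p` of the tangent line at `p` exchanges points which appear from `O` under equal
angles from `p` (the projective involution which fixes `p` and the point of the tangent line at right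
angle from `p` as seen from `O`; by polar duality this is the reflection law of ordinary billiards).
If the sides of the triangles of the outer leaf appear from `O` under angles at most `3 π / 4`
(the triangular billiard orbits of the dual table have angles at least `π / 4`), then `γ` is an
ellipse and the leaves are ellipses of one pencil.
-/

set_option autoImplicit false

open Set Complex
open scoped Real

namespace Pool.Agent.Results.MP_ae5b4e_an.InnerThreePeriodic

open Pool.Agent.H97.OB Pool.Agent.H97.OC Pool.Agent.H97.IN

theorem result {γ : ℝ → ℂ} {ρ : ℝ → ℝ} {Y : ℂ → ℝ}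
    (hγ : IsOval γ ρ) (h0 : (0 : ℂ) ∈ inside γ) (hY : IsCollar γ Y)
    (hσ : ∀ θ, SigmaAngular γ Y θ) (h3 : OuterLeafThreePeriodic γ Y) (hw : SidesAtMost γ Y) :
    ∃ a b d e f : ℝ,
      (∀ z : ℂ, z ∈ range γ ↔
        a * z.re ^ 2 + 2 * b * z.re * z.im + d * z.im ^ 2 + 2 * e * z.re + 2 * f * z.im = 1) ∧
      ∀ c : ℝ, 0 ≤ c → c ≤ 1 → ∃ l : ℝ, 0 ≤ l ∧ 0 < a - l ∧ b ^ 2 < (a - l) * (d - l) ∧
        ∀ z : ℂ, Y z = c ↔ (a - l) * z.re ^ 2 + 2 * b * z.re * z.im + (d - l) * z.im ^ 2 +
          2 * e * z.re + 2 * f * z.im = 1 :=
  inner_three_periodic hγ h0 hY hσ h3 hw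

end Pool.Agent.Results.MP_ae5b4e_an.InnerThreePeriodic
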