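import Pool.Agent.H97.OB.Fin

/-!
# Outer Bialy-Mironov theorem

Let `γ` be a centrally symmetric oval of class `C²` with positive curvature whose exterior collar,
up to and including a leaf of 4-periodic orbits of the outer billiard, is foliated by closed convex
curves, such that for every point `p` of `γ` the involution `σ_p` of the tangent line at `p` is the
point reflection in `p`.  Then `γ` is an ellipse and the leaves are homothetic ellipses.

Only `γ` is assumed symmetric.  The symmetry of the leaves and the (Radon type) relations of the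
outer leaf are proved, not assumed.
-/

set_option autoImplicit false

open Set Complex
open scoped Real

namespace Pool.Agent.Results.MP_ae5b4e_an.OuterBialyMironov

open Pool.Agent.H97.OB

theorem result {γ : ℝ → ℂ} {ρ : ℝ → ℝ} {Y : ℂ → ℝ}
    (hγ : IsOval γ ρ) (hsymm : ∀ θ, γ (θ + π) = -γ θ)
    (hY : IsCollar γ Y) (hσ : ∀ θ, SigmaReflection γ Y θ)
    (h4 : OuterLeafFourPeriodic γ Y) :
    ∃ a b d : ℝ, 0 < a ∧ b ^ 2 < a * d ∧
      (∀ z : ℂ, z ∈ range γ ↔ a * z.re ^ 2 + 2 * b * z.re * z.im + d * z.im ^ 2 = 1) ∧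
      ∀ c : ℝ, 0 ≤ c → c ≤ 1 → ∃ l : ℝ, 1 ≤ l ∧
        ∀ z : ℂ, Y z = c ↔ a * z.re ^ 2 + 2 * b * z.re * z.im + d * z.im ^ 2 = l :=
  outer_bialy_mironov hγ hsymm hY hσ h4

end Pool.Agent.Results.MP_ae5b4e_an.OuterBialyMironov
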