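import Pool.Agent.H97.OC.Main

/-!
# Outer billiards: rigidity of a collar up to a leaf of 3-periodic orbits, without symmetry

Let `γ` be an oval of class `C²` with positive curvature (no symmetry is assumed) whose exterior
collar, up to and including a leaf of 3-periodic orbits of the outer billiard, is foliated by closed
convex curves, such that for every point `p` of `γ` the involution `σ_p` of the tangent line at `p`
is the point reflection in `p`.  Then `γ` is an ellipse and the leaves are homothetic ellipses with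
the same centre.
-/

set_option autoImplicit false

open Set Complex
open scoped Real

namespace Pool.Agent.Results.MP_ae5b4e_an.OuterThreePeriodic

open Pool.Agent.H97.OB Pool.Agent.H97.OC

theorem result {γ : ℝ → ℂ} {ρ : ℝ → ℝ} {Y : ℂ → ℝ}
    (hγ : IsOval γ ρ) (hY : IsCollar γ Y) (hσ : ∀ θ, SigmaReflection γ Y θ)
    (h3 : OuterLeafThreePeriodic γ Y) :
    ∃ (O : ℂ) (a b d : ℝ), 0 < a ∧ b ^ 2 < a * d ∧
      (∀ z : ℂ, z ∈ range γ ↔ a * (z - O).re ^ 2 + 2 * b * (z - O).re * (z - O).im +
        d * (z - O).im ^ 2 = 1) ∧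
      ∀ c : ℝ, 0 ≤ c → c ≤ 1 → ∃ l : ℝ, 1 ≤ l ∧
        ∀ z : ℂ, Y z = c ↔ a * (z - O).re ^ 2 + 2 * b * (z - O).re * (z - O).im +
          d * (z - O).im ^ 2 = l :=
  outer_rigidity hγ hY hσ h3

end Pool.Agent.Results.MP_ae5b4e_an.OuterThreePeriodic
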